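import Pool.Agent.Helper303.MendG

set_option autoImplicit false

namespace Pool.Agent.Results.MP_aaabe1_al.FourTimes

/-- Every partial idempotent quasigroup of order `n` closed under `x(yx) = y` (i.e. every partial
Mendelsohn triple system of order `n`) embeds in a complete one of every admissible order
`t ≥ 4n + 7`. -/
theorem result :
    ∀ n : ℕ, ∀ p : Fin n → Fin n → Option (Fin n),
      (∀ x y y' z : Fin n, p x y = some z → p x y' = some z → y = y') →
      (∀ x x' y z : Fin n, p x y = some z → p x' y = some z → x = x') →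
      (∀ x z : Fin n, p x x = some z → z = x) →
      (∀ x y z : Fin n, p x y = some z → p y z = some x) →
      ∀ t : ℕ, 4 * n + 7 ≤ t → (t % 3 = 0 ∨ t % 3 = 1) →
        ∃ op : Fin t → Fin t → Fin t,
          (∀ x : Fin t, op x x = x) ∧
          (∀ x y : Fin t, op x (op y x) = y) ∧
          ∃ f : Fin n ↪ Fin t, ∀ x y z : Fin n, p x y = some z → op (f x) (f y) = f z :=
  fun n p _ _ h3 h4 t ht hmod => Pool.Agent.Helper303.Mend.main_all n p h3 h4 t ht hmod

end Pool.Agent.Results.MP_aaabe1_al.FourTimes
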